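import Pool.Agent.Lib.MP_acafa7_al.F.IfaceG
import Pool.Agent.Lib.MP_acafa7_al.MS.H70.Kit
import Pool.Agent.Lib.MP_acafa7_al.MS.H78.PConn
import Pool.Agent.Lib.MP_acafa7_al.MS.H09.Abs
import Pool.Agent.Lib.MP_acafa7_al.MS.H09.Hair

/-! D2H (PaperF 2.4): a disc gives a homotopy. -/

namespace MSG.F87

open MSG Classical

section hairs

variable {D : Type} {M : DMap D}

theorem z2 (x : ZMod 2) : x + x = 0 := CharTwo.add_self_eq_zero x

/-- A face that is invariant under `ι` contains a hair. -/
theorem hair_ex (hP : M.Planar) {R : List D} (hR : M.IsFace R)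
    (hι : ∀ r ∈ R, M.ι r ∈ R) : ∃ r ∈ R, M.φ r = M.ι r := by
  have hex : ∃ j : ℕ, ∃ r ∈ R, (M.φ ^ j) r = M.ι r := by
    obtain ⟨r, l, rfl⟩ := List.exists_cons_of_ne_nil hR.1
    have hr : r ∈ r :: l := by simp
    obtain ⟨k, -, hk⟩ := H78.face_reach hR hr (hι r hr)
    exact ⟨k, r, hr, hk⟩
  set j := Nat.find hex with hj
  obtain ⟨r, hr, hrj⟩ := Nat.find_spec hex
  have hmin : ∀ i, i < j → ∀ s ∈ R, (M.φ ^ i) s ≠ M.ι s := by
    intro i hi s hs h
    exact Nat.find_min hex hi ⟨s, hs, h⟩
  rw [← hj] at hrj
  have hj0 : j ≠ 0 := by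
    intro h0
    rw [h0] at hrj
    exact M.ne r hrj.symm
  have hmem : ∀ i : ℕ, ∀ s ∈ R, (M.φ ^ i) s ∈ R := by
    intro i
    induction i with
    | zero => intro s hs; exact hs
    | succ i ih =>
      intro s hs
      rw [pow_succ', Equiv.Perm.mul_apply]
      exact H70.IsFace.φ_mem M hR (ih s hs)
  have hdist : ∀ i, 1 ≤ i → i ≤ j → (M.φ ^ i) r ≠ r := by
    intro i h1 h2 h
    have h3 : (M.φ ^ (j - i)) r = M.ι r := by
      have h4 : j = (j - i) + i := by omega
      rw [h4, pow_add, Equiv.Perm.mul_apply, h] at hrj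
      exact hrj
    exact hmin (j - i) (by omega) r hr h3
  by_cases hj1 : j = 1
  · refine ⟨r, hr, ?_⟩
    rw [hj1, pow_one] at hrj
    exact hrj
  exfalso
  have hj2 : 2 ≤ j := by omega
  let k : D → ZMod 2 := fun d => if ∃ i, 1 ≤ i ∧ i ≤ j ∧ (M.φ ^ i) r = d then 1 else 0
  have hk1 : ∀ i, 1 ≤ i → i ≤ j → k ((M.φ ^ i) r) = 1 := by
    intro i h1 h2
    simp only [k]
    rw [if_pos ⟨i, h1, h2, rfl⟩]
  have hkr : k r = 0 := by
    simp only [k]
    rw [if_neg]
    rintro ⟨i, h1, h2, h3⟩
    exact hdist i h1 h2 h3
  have hcob : ∀ d, k (M.φ d) + k d = if d = r ∨ d = M.ι r then 1 else 0 := by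
    intro d
    by_cases h1 : ∃ i, 1 ≤ i ∧ i ≤ j ∧ (M.φ ^ i) r = M.φ d
    · obtain ⟨i, hi1, hi2, hi3⟩ := h1
      have h3 : (M.φ ^ (i - 1)) r = d := by
        have h4 : i = (i - 1) + 1 := by omega
        rw [h4, pow_succ', Equiv.Perm.mul_apply] at hi3
        exact M.φ.injective hi3
      have h5 : k (M.φ d) = 1 := by
        rw [← hi3]
        exact hk1 i hi1 hi2
      rw [h5]
      by_cases hi : i = 1
      · have h6 : d = r := by
          rw [← h3, hi]
          rfl
        rw [h6, hkr, if_pos (Or.inl rfl), add_zero]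
      · have h7 : k d = 1 := by
          rw [← h3]
          exact hk1 (i - 1) (by omega) (by omega)
        rw [h7, if_neg]
        · exact z2 1
        · rintro (h8 | h8)
          · exact hdist (i - 1) (by omega) (by omega) (h3.trans h8)
          · exact hmin (i - 1) (by omega) r hr (h3.trans h8)
    · have h5 : k (M.φ d) = 0 := by
        simp only [k]
        rw [if_neg h1]
      rw [h5, zero_add]
      by_cases h6 : ∃ i, 1 ≤ i ∧ i ≤ j ∧ (M.φ ^ i) r = d
      · obtain ⟨i, hi1, hi2, hi3⟩ := h6
        have hij : i = j := by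
          by_contra hne
          apply h1
          refine ⟨i + 1, by omega, by omega, ?_⟩
          rw [pow_succ', Equiv.Perm.mul_apply, hi3]
        have h7 : d = M.ι r := by rw [← hi3, hij, hrj]
        rw [if_pos (Or.inr h7), ← hi3]
        exact hk1 i hi1 hi2
      · have h7 : k d = 0 := by
          simp only [k]
          rw [if_neg h6]
        rw [h7, if_neg]
        rintro (h8 | h8)
        · apply h1
          refine ⟨1, le_refl _, by omega, ?_⟩
          rw [h8, pow_one]
        · apply h6
          exact ⟨j, by omega, le_refl _, by rw [hrj, h8]⟩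
  have hcond : ∀ d, k (M.φ (M.ι d)) + k (M.ι d) = k (M.φ d) + k d := by
    intro d
    rw [hcob, hcob]
    have e1 : (M.ι d = r ∨ M.ι d = M.ι r) ↔ (d = r ∨ d = M.ι r) := by
      constructor
      · rintro (h | h)
        · right
          rw [← h, M.ιι]
        · left
          exact M.ι.injective h
      · rintro (h | h)
        · right
          rw [h]
        · left
          rw [h, M.ιι]
    by_cases h : d = r ∨ d = M.ι r
    · rw [if_pos h, if_pos (e1.2 h)]
    · rw [if_neg h, if_neg (fun h' => h (e1.1 h'))]
  obtain ⟨h, hh1, hh2⟩ := hP k hcond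
  have hc : ∀ i : ℕ, ∀ s, k ((M.φ ^ i) s) + h ((M.φ ^ i) s) = k s + h s := by
    intro i
    induction i with
    | zero => intro s; rfl
    | succ i ih =>
      intro s
      rw [pow_succ', Equiv.Perm.mul_apply, hh2, ih]
  have hφr : M.φ r ∈ R := H70.IsFace.φ_mem M hR hr
  obtain ⟨l, -, hl⟩ := H78.face_reach hR hr (hι _ hφr)
  have e1 : h (M.ι (M.φ r)) = 1 + h r := by
    rw [← hh1]
    have h3 := hc 2 r
    rw [hk1 2 (by omega) hj2, hkr, zero_add] at h3
    have h4 : (M.φ ^ 2) r = M.φ (M.φ r) := by
      rw [pow_succ', pow_one, Equiv.Perm.mul_apply]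
    rw [h4] at h3
    rw [← h3, ← add_assoc, z2, zero_add]
  have e2 : k (M.ι (M.φ r)) = 1 := by
    have h3 := hc l r
    rw [hl, e1, hkr, zero_add] at h3
    have h5 : k (M.ι (M.φ r)) + 1 = 0 := by
      have h6 : (k (M.ι (M.φ r)) + 1) + h r = 0 + h r := by
        rw [zero_add, add_assoc]
        exact h3
      exact add_right_cancel h6
    calc k (M.ι (M.φ r)) = k (M.ι (M.φ r)) + 1 + 1 := by rw [add_assoc, z2, add_zero]
      _ = 1 := by rw [h5, zero_add]
  have e3 : ∃ i, 1 ≤ i ∧ i ≤ j ∧ (M.φ ^ i) r = M.ι (M.φ r) := by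
    by_contra hno
    simp only [k] at e2
    rw [if_neg hno] at e2
    exact absurd e2 (by decide)
  obtain ⟨i, hi1, hi2, hi3⟩ := e3
  have h4 : i = (i - 1) + 1 := by omega
  rw [h4, pow_succ, Equiv.Perm.mul_apply] at hi3
  exact hmin (i - 1) (by omega) _ hφr hi3

end hairs

section shift

variable {V : Type}

theorem shft_pow_nat (n : ℕ) (p : V × ℤ) : ((shft V) ^ n) p = (p.1, p.2 + n) := by
  induction n with
  | zero => simp
  | succ n ih =>
    rw [pow_succ', Equiv.Perm.mul_apply, ih]
    simp only [shft, Equiv.coe_fn_mk, Nat.cast_add, Nat.cast_one, add_assoc]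

theorem shft_free (p : V × ℤ) (n : ℤ) (h : ((shft V) ^ n) p = p) : n = 0 := by
  rcases n with n | n
  · have h1 := shft_pow_nat n p
    have h2 : ((shft V) ^ n) p = p := by
      have : (shft V) ^ (Int.ofNat n) = (shft V) ^ n := zpow_natCast _ _
      rw [← this]
      exact h
    rw [h1] at h2
    have h3 := congrArg Prod.snd h2
    simp only at h3
    have : (n : ℤ) = 0 := by linarith
    simpa using this
  · exfalso
    have h2 : ((shft V) ^ (n + 1)) p = p := by
      have h3 : ((shft V) ^ (n + 1)) (((shft V) ^ (Int.negSucc n)) p) = p := by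
        rw [zpow_negSucc]
        exact Equiv.apply_symm_apply _ _
      rw [h] at h3
      exact h3
    rw [shft_pow_nat] at h2
    have h3 := congrArg Prod.snd h2
    simp only at h3
    push_cast at h3
    have h4 : (0 : ℤ) ≤ n := Int.natCast_nonneg n
    linarith

end shift

section maps

variable {V D : Type}

theorem card_two [Fintype D] {D' : Type} [Fintype D'] {M : DMap D} {d : D} {j : D' → D}
    (hj : Function.Injective j) (hr : ∀ x, (∃ x', j x' = x) ↔ (x ≠ d ∧ x ≠ M.ι d)) :
    Fintype.card D' + 2 = Fintype.card D := by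
  have h1 : (Finset.univ.image j) = (Finset.univ.erase d).erase (M.ι d) := by
    ext x
    simp only [Finset.mem_image, Finset.mem_univ, true_and, Finset.mem_erase, and_true]
    rw [hr]
    exact and_comm
  have h2 : (Finset.univ.image j).card = Fintype.card D' := by
    rw [Finset.card_image_of_injective _ hj, Finset.card_univ]
  rw [h1, Finset.card_erase_of_mem, Finset.card_erase_of_mem (Finset.mem_univ _),
    Finset.card_univ] at h2
  · have h3 : 2 ≤ Fintype.card D := by
      have : 1 < Fintype.card D := Fintype.one_lt_card_iff.2 ⟨d, M.ι d, (M.ne d).symm⟩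
      omega
    omega
  · rw [Finset.mem_erase]
    exact ⟨M.ne d, Finset.mem_univ _⟩

theorem toL_tri [Fintype D] (M : PMap V D) {d : D} (h : M.Tri3 d) : M.toL.Tri d := ⟨h, rfl⟩

/-- absorbing a triangle -/
theorem absP [Fintype D] (M : PMap V D) (d : D) (hT : M.Tri3 (M.ι d)) (h1 : d ≠ M.φ (M.ι d))
    (h2 : d ≠ M.φ (M.φ (M.ι d))) :
    ∃ (D' : Type) (_ : Fintype D') (M' : PMap V D') (j : D' → D),
      Function.Injective j ∧ (∀ x, (∃ x', j x' = x) ↔ (x ≠ d ∧ x ≠ M.ι d)) ∧
      (∀ x, j (M'.φ x) = if M.φ (j x) = d then M.φ (M.ι d) else if M.φ (j x) = M.ι d then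
        (if M.φ d = d then M.φ (M.ι d) else M.φ d) else M.φ (j x)) ∧
      (∀ x, j (M'.ι x) = M.ι (j x)) ∧ (∀ x, M'.f x = M.f (j x)) ∧ (M.Planar → M'.Planar) ∧
      Fintype.card D' + 2 = Fintype.card D := by
  obtain ⟨D', _, M', j, hj, hr, hφ, hι, hf, hγ, hh, -, hp⟩ :=
    H09.abs (V × ℤ) D (shft V) M.toL d (toL_tri M hT) h1 h2
  have hz : M'.Zero := by
    intro x
    refine ⟨?_, ?_⟩
    · rw [hγ]; rfl
    · rw [hh]
      have e0 : ∀ y, M.toL.h y = 0 := fun _ => rfl
      have e1 : ∀ y, M.toL.γ y = 0 := fun _ => rfl
      simp only [e0, e1, add_zero, sub_zero, ite_self]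
  refine ⟨D', inferInstance, M'.toP hz, j, hj, hr, hφ, hι, ?_, hp, card_two hj hr⟩
  intro x
  show (M'.f x).1 = M.f (j x)
  rw [hf]
  rfl

/-- removing a hair -/
theorem hairP [Fintype D] (M : PMap V D) (d : D) (h1 : M.φ d = M.ι d) (h2 : M.φ (M.ι d) ≠ d) :
    ∃ (D' : Type) (_ : Fintype D') (M' : PMap V D') (j : D' → D),
      Function.Injective j ∧ (∀ x, (∃ x', j x' = x) ↔ (x ≠ d ∧ x ≠ M.ι d)) ∧
      (∀ x, j (M'.φ x) = if M.φ (j x) = d then M.φ (M.ι d) else M.φ (j x)) ∧
      (∀ x, j (M'.ι x) = M.ι (j x)) ∧ (∀ x, M'.f x = M.f (j x)) ∧ (M.Planar → M'.Planar) ∧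
      Fintype.card D' + 2 = Fintype.card D := by
  obtain ⟨D', _, M', j, hj, hr, hφ, hι, hf, hγ, hh, -, hp⟩ :=
    H09.hair (V × ℤ) D (shft V) shft_free M.toL d h1 h2
  have hz : M'.Zero := by
    intro x
    refine ⟨?_, ?_⟩
    · rw [hγ]; rfl
    · rw [hh]
      have e0 : ∀ y, M.toL.h y = 0 := fun _ => rfl
      simp only [e0, add_zero, ite_self]
  refine ⟨D', inferInstance, M'.toP hz, j, hj, hr, hφ, hι, ?_, hp, card_two hj hr⟩
  intro x
  show (M'.f x).1 = M.f (j x)
  rw [hf]
  rfl

theorem wk_cons (M : PMap V D) (r : D) (R : List D) :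
    M.wk (r :: R) = M.f r :: (R.map M.f ++ [M.f r]) := by
  simp [PMap.wk]

theorem nulp_rot1 {G : SimpleGraph V} {S : Set V} {ω : V → V → V → ZMod 2} (M : PMap V D)
    (R : List D) (h2 : 2 ≤ R.length) {e : ZMod 2} {n : ℕ}
    (h : NulP G S ω (M.wk (R.rotate 1)) e n) : NulP G S ω (M.wk R) e n := by
  match R, h2 with
  | r :: s :: R', _ =>
    have h' : (r :: s :: R').rotate 1 = s :: (R' ++ [r]) := by simp
    rw [h', wk_cons] at h
    rw [wk_cons]
    refine NulP.rot (M.f r) (M.f s) (R'.map M.f ++ [M.f r]) e n ?_ ?_
    · have h3 : M.f r :: M.f s :: (R'.map M.f ++ [M.f r]) =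
          (M.f r :: M.f s :: R'.map M.f) ++ [M.f r] := rfl
      rw [h3, List.getLast?_concat]
    · simpa using h

theorem nulp_rot {G : SimpleGraph V} {S : Set V} {ω : V → V → V → ZMod 2} (M : PMap V D)
    (k : ℕ) : ∀ (R : List D), 2 ≤ R.length → ∀ {e : ZMod 2} {n : ℕ},
    NulP G S ω (M.wk (R.rotate k)) e n → NulP G S ω (M.wk R) e n := by
  induction k with
  | zero => intro R _ e n h; simpa using h
  | succ k ih =>
    intro R h2 e n h
    apply nulp_rot1 M R h2
    apply ih (R.rotate 1) (by rw [List.length_rotate]; exact h2)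
    rw [List.rotate_rotate, Nat.add_comm]
    exact h

theorem lift_list {D' : Type} (j : D' → D) : ∀ L : List D, (∀ x ∈ L, ∃ x', j x' = x) →
    ∃ L' : List D', L'.map j = L := by
  intro L
  induction L with
  | nil => intro _; exact ⟨[], rfl⟩
  | cons x L ih =>
    intro h
    obtain ⟨x', hx'⟩ := h x (by simp)
    obtain ⟨L', hL'⟩ := ih (fun y hy => h y (by simp [hy]))
    exact ⟨x' :: L', by simp [hx', hL']⟩

/-- the main induction -/
theorem key (V : Type) (G : SimpleGraph V) (S : Set V) : ∀ (N : ℕ) (D : Type) [Fintype D]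
    (M : PMap V D) (R : List D), Fintype.card D = N → M.Planar →
    (∀ d, G.Adj (M.f d) (M.f (M.ι d))) → M.IsFace R → M.Off3 {d | d ∈ R} → (∀ d, M.f d ∈ S) →
    ∃ (n : ℕ) (e : ZMod 2), NulP G S (fun _ _ _ => 0) (M.wk R) e n ∧
      3 * n + R.length ≤ Fintype.card D := by
  intro N
  induction N using Nat.strong_induction_on with
  | _ N ih =>
  intro D _ M R hN hP hadj hR hoff hS
  have hfm : ∀ x, M.φ x ∈ R ↔ x ∈ R := fun x => H70.IsFace.φ_mem_iff M.toDMap hR
  have hnofix : ∀ x, M.φ x ≠ x := by
    intro x hx
    have h1 := hadj x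
    rw [M.tgt, hx] at h1
    exact G.loopless.irrefl _ h1
  have hlen : 2 ≤ R.length := by
    match R, hR with
    | [], h => exact absurd rfl h.1
    | [r], h =>
      exfalso
      have h1 := h.2.2
      simp at h1
      exact hnofix r h1
    | r :: s :: R', _ => simp
  by_cases hcase : ∀ r ∈ R, M.ι r ∈ R
  · -- hair
    obtain ⟨r, hr, hrr⟩ := hair_ex hP hR hcase
    obtain ⟨k, hk⟩ := H78.face_rot hR hr
    have hRk : M.IsFace (R.rotate k) := H70.IsFace.rotate M.toDMap hR k
    have hlk : (R.rotate k).length = R.length := List.length_rotate ..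
    suffices hs : ∃ (n : ℕ) (e : ZMod 2), NulP G S (fun _ _ _ => 0) (M.wk (R.rotate k)) e n ∧
        3 * n + (R.rotate k).length ≤ Fintype.card D by
      obtain ⟨n, e, h1, h2⟩ := hs
      exact ⟨n, e, nulp_rot M k R hlen h1, by rw [← hlk]; exact h2⟩
    -- the rotated list
    obtain ⟨R0, hR0⟩ : ∃ R0, R.rotate k = r :: M.ι r :: R0 := by
      refine ⟨(List.range (R.length - 2)).map (fun i => (M.φ ^ (i + 2)) r), ?_⟩
      rw [hk]
      obtain ⟨m, hm⟩ : ∃ m, R.length = m + 2 := ⟨R.length - 2, by omega⟩
      rw [hm, List.range_succ_eq_map, List.map_cons, List.range_succ_eq_map, List.map_cons,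
        List.map_cons]
      have e1 : (M.φ ^ 0) r = r := rfl
      have e2 : (M.φ ^ (Nat.succ 0)) r = M.ι r := by
        rw [← hrr]
        rfl
      rw [e1, e2]
      congr 2
      rw [List.map_map, List.map_map]
      rfl
    have hface := hRk
    rw [hR0] at hface ⊢
    have hmR : ∀ x, x ∈ R ↔ x ∈ r :: M.ι r :: R0 := by
      intro x
      rw [← hR0, List.mem_rotate]
    have hnd := hface.2.1
    have hmap := hface.2.2
    rcases R0 with _ | ⟨s, R1⟩
    · -- an edge
      refine ⟨0, 0, ?_, ?_⟩
      · have e1 : M.wk [r, M.ι r] = [M.f r, M.f (M.ι r), M.f r] := by simp [PMap.wk]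
        rw [e1]
        exact NulP.base _ _ (hadj r)
      · have h3 : 1 < Fintype.card D := Fintype.one_lt_card_iff.2 ⟨r, M.ι r, (M.ne r).symm⟩
        simp only [List.length_cons, List.length_nil]
        omega
    · have hs : M.φ (M.ι r) = s := by
        simp only [List.map_cons, List.rotate_cons_succ, List.rotate_zero, List.cons_append,
          List.cons.injEq] at hmap
        exact hmap.2.1
      simp only [List.nodup_cons, List.mem_cons, not_or] at hnd
      obtain ⟨⟨hn1, hn2, hn3⟩, ⟨hn4, hn5⟩, hn6, hn7⟩ := hnd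
      have hne : M.φ (M.ι r) ≠ r := by
        rw [hs]
        exact fun h => hn2 h.symm
      obtain ⟨D', _, M', j, hj, hrg, hφ, hι', hf, hp, hcard⟩ := hairP M r hrr hne
      obtain ⟨R', hR'⟩ := lift_list j (s :: R1) (by
        intro x hx
        rw [hrg]
        constructor
        · rintro rfl
          rcases List.mem_cons.1 hx with h | h
          · exact hn2 h
          · exact hn3 h
        · rintro rfl
          rcases List.mem_cons.1 hx with h | h
          · exact hn4 h
          · exact hn5 h)
      have hlR' : R'.length = R1.length + 1 := by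
        have := congrArg List.length hR'
        simpa using this
      have hF' : M'.IsFace R' := by
        refine ⟨?_, ?_, ?_⟩
        · rintro rfl
          simp at hR'
        · apply List.Nodup.of_map j
          rw [hR']
          exact List.nodup_cons.2 ⟨hn6, hn7⟩
        · apply List.map_injective_iff.2 hj
          rw [List.map_rotate, hR', List.map_map]
          have e1 : R'.map (j ∘ M'.φ) =
              (R'.map j).map (fun x => if M.φ x = r then M.φ (M.ι r) else M.φ x) := by
            rw [List.map_map]
            apply List.map_congr_left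
            intro x _
            exact hφ x
          rw [e1, hR']
          -- from the face equation
          have e2 : (s :: R1).map M.φ = R1 ++ [r] := by
            simp only [List.map_cons, List.rotate_cons_succ, List.rotate_zero, List.cons_append,
              List.cons.injEq] at hmap
            have e3 := hmap.2.2
            have e4 : M.φ s :: R1.map M.φ = R1 ++ [r] := by
              have e5 := e3
              simpa using e5
            simpa using e4
          have e6 : (s :: R1).map (fun x => if M.φ x = r then M.φ (M.ι r) else M.φ x) =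
              ((s :: R1).map M.φ).map (fun y => if y = r then M.φ (M.ι r) else y) := by
            rw [List.map_map]
            rfl
          rw [e6, e2, List.map_append, List.map_cons, List.map_nil, if_pos rfl, hs]
          have e7 : R1.map (fun y => if y = r then s else y) = R1 := by
            conv_rhs => rw [← List.map_id R1]
            apply List.map_congr_left
            intro x hx
            have hxr : x ≠ r := by
              rintro rfl
              exact hn3 hx
            show (if x = r then s else x) = id x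
            rw [if_neg hxr]
            rfl
          rw [e7]
          simp
      have hoff' : M'.Off3 {d | d ∈ R'} := by
        refine ⟨fun d hd => H70.IsFace.φ_mem M'.toDMap hF' hd, ?_⟩
        intro x' hx'
        have hx1 : j x' ∉ s :: R1 := by
          intro h
          rw [← hR', List.mem_map] at h
          obtain ⟨y, hy, hy'⟩ := h
          rw [hj hy'] at hy
          exact hx' hy
        have hx2 := (hrg (j x')).1 ⟨x', rfl⟩
        have hx3 : j x' ∉ R := by
          rw [hmR]
          intro h
          rcases List.mem_cons.1 h with h | h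
          · exact hx2.1 h
          rcases List.mem_cons.1 h with h | h
          · exact hx2.2 h
          · exact hx1 h
        have hT := hoff.2 (j x') hx3
        have hrR : r ∈ R := hr
        have g1 : ∀ y', j y' ∉ R → j (M'.φ y') = M.φ (j y') := by
          intro y' hy
          rw [hφ, if_neg]
          intro h
          exact hy ((hfm _).1 (h ▸ hrR))
        have g2 : j (M'.φ x') = M.φ (j x') := g1 x' hx3
        have g3 : j (M'.φ (M'.φ x')) = M.φ (M.φ (j x')) := by
          rw [g1, g2]
          rw [g2, hfm]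
          exact hx3
        have g4 : j (M'.φ (M'.φ (M'.φ x'))) = M.φ (M.φ (M.φ (j x'))) := by
          rw [g1, g3]
          rw [g3, hfm, hfm]
          exact hx3
        refine ⟨hj (g4.trans hT.1), ?_⟩
        intro h
        apply hT.2
        rw [← g2, h]
      have hadj' : ∀ d, G.Adj (M'.f d) (M'.f (M'.ι d)) := by
        intro d
        rw [hf, hf, hι']
        exact hadj _
      obtain ⟨n, e, hn, hcd⟩ := ih (Fintype.card D') (by omega) D' M' R' rfl (hp hP) hadj' hF'
        hoff' (fun d => by rw [hf]; exact hS _)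
      -- the walk
      have hR1 : R1 ≠ [] := by
        rintro rfl
        have h1 : M.ι s ∈ R := hcase s ((hmR s).2 (by simp))
        rw [hmR] at h1
        simp only [List.mem_cons, List.not_mem_nil, or_false] at h1
        rcases h1 with h1 | h1 | h1
        · exact hn4 (by rw [← h1, M.ιι])
        · exact hn2 (M.ι.injective h1).symm
        · exact M.ne s h1
      have hwk : M'.wk R' = M.f s :: (R1.map M.f ++ [M.f s]) := by
        have e1 : R'.map M'.f = (s :: R1).map M.f := by
          rw [← hR', List.map_map]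
          apply List.map_congr_left
          intro x _
          exact hf x
        rw [PMap.wk, e1]
        simp
      have hfs : M.f s = M.f r := by
        rw [← hs, ← M.tgt, M.ιι]
      have hw : M.wk (r :: M.ι r :: s :: R1) =
          [] ++ M.f r :: M.f (M.ι r) :: M.f r :: (R1.map M.f ++ [M.f r]) := by
        rw [wk_cons, List.map_cons, List.map_cons, hfs]
        simp
      refine ⟨n + 0, 0 + e, ?_, ?_⟩
      · have h1 : NulP G S (fun _ _ _ => 0) ([] ++ M.f r :: (R1.map M.f ++ [M.f r])) e n := by
          rw [List.nil_append]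
          rw [hwk, hfs] at hn
          exact hn
        have h2 : Stp G S (fun _ _ _ => 0)
            ([] ++ M.f r :: M.f (M.ι r) :: M.f r :: (R1.map M.f ++ [M.f r]))
            ([] ++ M.f r :: (R1.map M.f ++ [M.f r])) 0 := Stp.del _ _ _ _ (hadj r)
        have h3 : 3 ≤ ([] ++ M.f r :: (R1.map M.f ++ [M.f r])).length := by
          have : 1 ≤ R1.length := List.length_pos_of_ne_nil hR1
          simp
          omega
        have h4 := NulP.stp _ _ _ _ _ h2 h3 h1
        rw [hw]
        have h5 : nTri ([] ++ M.f r :: M.f (M.ι r) :: M.f r :: (R1.map M.f ++ [M.f r]))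
            ([] ++ M.f r :: (R1.map M.f ++ [M.f r])) = 0 := by
          rw [nTri, if_pos]
          left
          simp
        rw [h5] at h4
        exact h4
      · simp only [List.length_cons]
        rw [hlR'] at hcd
        omega
  · -- a triangle
    push Not at hcase
    obtain ⟨d, hd, hιd⟩ := hcase
    obtain ⟨k, hk⟩ := H78.face_rot hR hd
    have hRk : M.IsFace (R.rotate k) := H70.IsFace.rotate M.toDMap hR k
    have hlk : (R.rotate k).length = R.length := List.length_rotate ..
    suffices hs : ∃ (n : ℕ) (e : ZMod 2), NulP G S (fun _ _ _ => 0) (M.wk (R.rotate k)) e n ∧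
        3 * n + (R.rotate k).length ≤ Fintype.card D by
      obtain ⟨n, e, h1, h2⟩ := hs
      exact ⟨n, e, nulp_rot M k R hlen h1, by rw [← hlk]; exact h2⟩
    obtain ⟨R1, hR1⟩ : ∃ R1, R.rotate k = d :: M.φ d :: R1 := by
      refine ⟨(List.range (R.length - 2)).map (fun i => (M.φ ^ (i + 2)) d), ?_⟩
      rw [hk]
      obtain ⟨m, hm⟩ : ∃ m, R.length = m + 2 := ⟨R.length - 2, by omega⟩
      rw [hm, List.range_succ_eq_map, List.map_cons, List.range_succ_eq_map, List.map_cons,
        List.map_cons]
      have e1 : (M.φ ^ 0) d = d := rfl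
      have e2 : (M.φ ^ (Nat.succ 0)) d = M.φ d := rfl
      rw [e1, e2]
      congr 2
      rw [List.map_map, List.map_map]
      rfl
    have hface := hRk
    rw [hR1] at hface ⊢
    have hmR : ∀ x, x ∈ R ↔ x ∈ d :: M.φ d :: R1 := by
      intro x
      rw [← hR1, List.mem_rotate]
    have hnd := hface.2.1
    have hmap := hface.2.2
    have hdn : d ∉ M.φ d :: R1 := (List.nodup_cons.1 hnd).1
    have hT := hoff.2 (M.ι d) hιd
    set p := M.φ (M.ι d) with hp
    set q := M.φ p with hq
    have hpR : p ∉ R := by rw [hp, hfm]; exact hιd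
    have hqR : q ∉ R := by rw [hq, hfm]; exact hpR
    have hdp : d ≠ p := fun h => hpR (h ▸ hd)
    have hdq : d ≠ q := fun h => hqR (h ▸ hd)
    have hφq : M.φ q = M.ι d := hT.1
    have hpi : p ≠ M.ι d := hT.2
    have hqi : q ≠ M.ι d := by
      intro h
      have : M.φ q = M.φ (M.ι d) := by rw [h]
      rw [hφq] at this
      exact hpi this.symm
    have hpq : p ≠ q := fun h => hnofix p h.symm
    obtain ⟨D', _, M', j, hj, hrg, hφ, hι', hf, hpl, hcard⟩ := absP M d hT hdp hdq
    obtain ⟨R', hR'⟩ := lift_list j (p :: q :: M.φ d :: R1) (by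
      intro x hx
      rw [hrg]
      rcases List.mem_cons.1 hx with h | h
      · rw [h]; exact ⟨hdp.symm, hpi⟩
      rcases List.mem_cons.1 h with h | h
      · rw [h]; exact ⟨hdq.symm, hqi⟩
      constructor
      · rintro rfl
        exact hdn h
      · rintro rfl
        exact hιd ((hmR _).2 (List.mem_cons_of_mem _ h)))
    have hlR' : R'.length = R1.length + 3 := by
      have := congrArg List.length hR'
      simpa using this
    have hsub : ∀ x ∈ M.φ d :: R1, x ∈ R := fun x hx => (hmR x).2 (List.mem_cons_of_mem _ hx)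
    have hF' : M'.IsFace R' := by
      refine ⟨?_, ?_, ?_⟩
      · rintro rfl
        simp at hR'
      · apply List.Nodup.of_map j
        rw [hR']
        refine List.nodup_cons.2 ⟨?_, List.nodup_cons.2 ⟨fun h => hqR (hsub _ h),
          (List.nodup_cons.1 hnd).2⟩⟩
        intro h
        rcases List.mem_cons.1 h with h | h
        · exact hpq h
        · exact hpR (hsub _ h)
      · apply List.map_injective_iff.2 hj
        rw [List.map_rotate, hR', List.map_map]
        have e1 : R'.map (j ∘ M'.φ) = (R'.map j).map (fun x => if M.φ x = d then p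
            else if M.φ x = M.ι d then (if M.φ d = d then p else M.φ d) else M.φ x) := by
          rw [List.map_map]
          apply List.map_congr_left
          intro x _
          exact hφ x
        rw [e1, hR', List.map_cons, List.map_cons]
        have e2 : (M.φ d :: R1).map M.φ = R1 ++ [d] := by
          simp only [List.map_cons, List.rotate_cons_succ, List.rotate_zero, List.cons_append,
            List.cons.injEq, true_and] at hmap
          have e4 : M.φ (M.φ d) :: R1.map M.φ = R1 ++ [d] := by simpa using hmap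
          simpa using e4
        have e6 : (M.φ d :: R1).map (fun x => if M.φ x = d then p
            else if M.φ x = M.ι d then (if M.φ d = d then p else M.φ d) else M.φ x) =
            ((M.φ d :: R1).map M.φ).map (fun y => if y = d then p else y) := by
          rw [List.map_map]
          apply List.map_congr_left
          intro x hx
          have h1 : M.φ x ≠ M.ι d := by
            intro h
            apply hιd
            rw [← h, hfm]
            exact hsub x hx
          show (if M.φ x = d then p
            else if M.φ x = M.ι d then (if M.φ d = d then p else M.φ d) else M.φ x) =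
            if M.φ x = d then p else M.φ x
          rw [if_neg h1]
        rw [e6, e2]
        have e8 : (if M.φ p = d then p else if M.φ p = M.ι d then
            (if M.φ d = d then p else M.φ d) else M.φ p) = q := by
          rw [if_neg (fun h => hdq h.symm), if_neg hqi]
        have e9 : (if M.φ q = d then p else if M.φ q = M.ι d then
            (if M.φ d = d then p else M.φ d) else M.φ q) = M.φ d := by
          rw [hφq, if_neg (M.ne d), if_pos rfl, if_neg (hnofix d)]
        rw [e8, e9, List.map_append, List.map_cons, List.map_nil, if_pos rfl]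
        have e7 : R1.map (fun y => if y = d then p else y) = R1 := by
          conv_rhs => rw [← List.map_id R1]
          apply List.map_congr_left
          intro x hx
          have hxd : x ≠ d := by
            rintro rfl
            exact hdn (List.mem_cons_of_mem _ hx)
          show (if x = d then p else x) = id x
          rw [if_neg hxd]
          rfl
        rw [e7]
        simp
    have hoff' : M'.Off3 {d | d ∈ R'} := by
      refine ⟨fun d hd => H70.IsFace.φ_mem M'.toDMap hF' hd, ?_⟩
      intro x' hx'
      have hx1 : j x' ∉ p :: q :: M.φ d :: R1 := by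
        intro h
        rw [← hR', List.mem_map] at h
        obtain ⟨y, hy, hy'⟩ := h
        rw [hj hy'] at hy
        exact hx' hy
      have hx2 := (hrg (j x')).1 ⟨x', rfl⟩
      have hxp : j x' ≠ p := fun h => hx1 (by rw [h]; simp)
      have hxq : j x' ≠ q := fun h => hx1 (by rw [h]; simp)
      have hx3 : j x' ∉ R := by
        rw [hmR]
        intro h
        rcases List.mem_cons.1 h with h | h
        · exact hx2.1 h
        · exact hx1 (List.mem_cons_of_mem _ (List.mem_cons_of_mem _ h))
      have hTx := hoff.2 (j x') hx3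
      have g1 : ∀ y', j y' ∉ R → j y' ≠ q → j (M'.φ y') = M.φ (j y') := by
        intro y' hy hy2
        rw [hφ, if_neg, if_neg]
        · intro h
          rw [← hφq] at h
          exact hy2 (M.φ.injective h)
        · intro h
          exact hy ((hfm _).1 (h ▸ hd))
      have g2 : j (M'.φ x') = M.φ (j x') := g1 x' hx3 hxq
      have g3 : j (M'.φ (M'.φ x')) = M.φ (M.φ (j x')) := by
        rw [g1, g2]
        · rw [g2, hfm]
          exact hx3
        · rw [g2]
          intro h
          exact hxp (M.φ.injective h)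
      have g4 : j (M'.φ (M'.φ (M'.φ x'))) = M.φ (M.φ (M.φ (j x'))) := by
        rw [g1, g3]
        · rw [g3, hfm, hfm]
          exact hx3
        · rw [g3]
          intro h
          exact hx2.2 (M.φ.injective (M.φ.injective h))
      refine ⟨hj (g4.trans hTx.1), ?_⟩
      intro h
      apply hTx.2
      rw [← g2, h]
    have hadj' : ∀ d, G.Adj (M'.f d) (M'.f (M'.ι d)) := by
      intro d
      rw [hf, hf, hι']
      exact hadj _
    obtain ⟨n, e, hn, hcd⟩ := ih (Fintype.card D') (by omega) D' M' R' rfl (hpl hP) hadj' hF'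
      hoff' (fun d => by rw [hf]; exact hS _)
    have hfp : M.f p = M.f d := by
      rw [hp, ← M.tgt, M.ιι]
    have hfd : M.f (M.φ d) = M.f (M.ι d) := (M.tgt d).symm
    have hfq : M.f (M.ι p) = M.f q := M.tgt p
    have hfi : M.f (M.ι q) = M.f (M.ι d) := by
      rw [M.tgt, hφq]
    have hwk : M'.wk R' = [] ++ M.f d :: M.f q :: M.f (M.φ d) :: (R1.map M.f ++ [M.f d]) := by
      have e1 : R'.map M'.f = (p :: q :: M.φ d :: R1).map M.f := by
        rw [← hR', List.map_map]
        apply List.map_congr_left
        intro x _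
        exact hf x
      rw [PMap.wk, e1]
      simp [hfp]
    have hw : M.wk (d :: M.φ d :: R1) =
        [] ++ M.f d :: M.f (M.φ d) :: (R1.map M.f ++ [M.f d]) := by
      rw [wk_cons, List.map_cons]
      simp
    refine ⟨n + 1, 0 + e, ?_, ?_⟩
    · rw [hwk] at hn
      have a1 : G.Adj (M.f d) (M.f q) := by
        have := hadj p
        rw [hfp, hfq] at this
        exact this
      have a2 : G.Adj (M.f q) (M.f (M.φ d)) := by
        have := hadj q
        rw [hfi, ← hfd] at this
        exact this
      have a3 : G.Adj (M.f d) (M.f (M.φ d)) := by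
        rw [hfd]
        exact hadj d
      have h2 : Stp G S (fun _ _ _ => 0)
          ([] ++ M.f d :: M.f (M.φ d) :: (R1.map M.f ++ [M.f d]))
          ([] ++ M.f d :: M.f q :: M.f (M.φ d) :: (R1.map M.f ++ [M.f d])) 0 :=
        Stp.exp _ _ _ _ _ a1 a2 a3 (hS q)
      have h3 : 3 ≤ ([] ++ M.f d :: M.f q :: M.f (M.φ d) :: (R1.map M.f ++ [M.f d])).length := by
        simp
      have h4 := NulP.stp _ _ _ _ _ h2 h3 hn
      rw [hw]
      have h5 : nTri ([] ++ M.f d :: M.f (M.φ d) :: (R1.map M.f ++ [M.f d]))
          ([] ++ M.f d :: M.f q :: M.f (M.φ d) :: (R1.map M.f ++ [M.f d])) = 1 := by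
        rw [nTri, if_neg]
        simp
      rw [h5] at h4
      exact h4
    · simp only [List.length_cons]
      rw [hlR'] at hcd
      omega

end maps

/-- D2H -/
theorem d2h_st : D2HStatement := by
  intro V D _ G S M R w hpf hS
  rw [hpf.walk]
  exact key V G S (Fintype.card D) D M R rfl hpf.planar hpf.adj hpf.face hpf.off hS

end MSG.F87
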